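import Pool.Agent.Q33.RDE.Grp

/-!
# Retreat depth and connected spheres do not lift along extensions

For a graph `Γ` with root `o`, `far Γ o n` is the complement of the ball of radius `n - 1`, `comp Γ o n g`
the component of `g` in it, `BoundedRetreat Γ o` says that the retreat depth is bounded, `OneEnded Γ o`
that each `far Γ o n` has exactly one infinite component, `sph Γ o n r` is `S(n, r)^∞`, and
`ConnectedSpheres Γ o` says that `Γ` is one-ended and that the connection thickness is bounded. `cay S`
is the Cayley graph. See `Pool.Agent.Q33.RDE.Defs`.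
-/

set_option autoImplicit false

namespace Pool.Agent.Results.MP_506dae_al.LampsOnTree

open Pool.Agent.Q33.RDE

/-- There are a group `G` with a finite generating set `S` and a surjective homomorphism `p : G → Q`
such that `(Q, p(S))` has bounded retreat depth and connected spheres, `G` is one-ended, and `(G, S)`
has neither bounded retreat depth nor connected spheres. -/
theorem result : ∃ (G Q : Type) (_ : Group G) (_ : Group Q) (S : Set G) (p : G →* Q),
    S.Finite ∧ Subgroup.closure S = ⊤ ∧ Function.Surjective p ∧
    BoundedRetreat (cay (p '' S)) 1 ∧ ConnectedSpheres (cay (p '' S)) 1 ∧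
    OneEnded (cay S) 1 ∧ ¬ BoundedRetreat (cay S) 1 ∧ ¬ ConnectedSpheres (cay S) 1 := by
  refine ⟨State, Multiplicative (ℤ × ℤ), inferInstance, inferInstance, SS, pr, SS_finite,
    closure_SS, pr_surj, ?_, ?_, ?_, ?_, ?_⟩
  · rw [image_SS]
    exact grid_retreat
  · rw [image_SS]
    exact grid_spheres
  · rw [cay_eq, one_eq]
    exact oneEnded
  · rw [cay_eq, one_eq]
    exact not_boundedRetreat
  · rw [cay_eq, one_eq]
    exact not_connectedSpheres

end Pool.Agent.Results.MP_506dae_al.LampsOnTree
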